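import Pool.Agent.H34.GA.Targets1
import Pool.Agent.H18.GZ.Targets3

/-!
Row EGB of the board ga: the part of the non singular matrices, rapidly decreasing kernels.
-/

set_option autoImplicit false

namespace Pool.Agent.H94.GA

open MeasureTheory Filter Pool.Agent.H34.GM Pool.Agent.H34.GZ Pool.Agent.H34.GU
  Pool.Agent.H34.GA
open scoped Topology

private lemma aN_pos {m : ℕ} {z : Mat m} (hz : z.det ≠ 0) : 0 < aN z :=
  Real.rpow_pos_of_pos (abs_pos.mpr hz) _

private lemma det_of_aN {m : ℕ} (hm : 1 ≤ m) {z : Mat m} (hz : 1 ≤ aN z) : z.det ≠ 0 := by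
  intro h0
  unfold aN at hz
  rw [h0, abs_zero, Real.zero_rpow (by positivity)] at hz
  norm_num at hz

private lemma det_smul_ne {m : ℕ} {c : ℝ} (hc : c ≠ 0) {z : Mat m} (hz : z.det ≠ 0) :
    (c • z).det ≠ 0 := by
  rw [Matrix.det_smul]
  exact mul_ne_zero (pow_ne_zero _ hc) hz

private lemma kk_det {m : ℕ} {r : ℝ} (hr : 0 < r) {z α g : Mat m} (hz : z.det ≠ 0)
    (hα : α.det ≠ 0) (hg : g.det ≠ 0) : (kk r z α g).det ≠ 0 := by
  unfold kk
  apply det_smul_ne
  · have h1 := aN_pos hz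
    have h2 := aN_pos hg
    positivity
  · rw [Matrix.det_mul, Matrix.det_mul]
    refine mul_ne_zero (mul_ne_zero ?_ hα) hg
    rw [Matrix.det_nonsing_inv, Ring.inverse_eq_inv']
    exact inv_ne_zero hz

private lemma cut_norm {m : ℕ} {c : ℕ → Mat m → ℝ} (hc : ∀ j z, 0 ≤ c j z ∧ c j z ≤ 1)
    (Ψ : Mat m → ℂ) (j : ℕ) (z : Mat m) : ‖(c j z : ℂ) * Ψ z‖ ≤ ‖Ψ z‖ := by
  rw [norm_mul, Complex.norm_real, Real.norm_eq_abs, abs_of_nonneg (hc j z).1]
  exact mul_le_of_le_one_left (norm_nonneg _) (hc j z).2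

private lemma cut_lim {m : ℕ} {c : ℕ → Mat m → ℝ}
    (hc : ∀ z : Mat m, z.det ≠ 0 → Tendsto (fun j => c j z) atTop (𝓝 1))
    (Ψ : Mat m → ℂ) (z : Mat m) (hz : z.det ≠ 0) :
    Tendsto (fun j => (c j z : ℂ) * Ψ z) atTop (𝓝 (Ψ z)) := by
  have h1 : Tendsto (fun j => (c j z : ℂ)) atTop (𝓝 ((1 : ℝ) : ℂ)) :=
    (Complex.continuous_ofReal.tendsto 1).comp (hc z hz)
  have h2 := h1.mul_const (Ψ z)
  rwa [Complex.ofReal_one, one_mul] at h2

private lemma meas_pair {m : ℕ} (f : Mat m → Mat m → Mat m) (hf : Measurable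
    (fun p : V m × V m => ((fun i j => f (mt p.1) (mt p.2) i j) : V m))) (g : V m) :
    Measurable (fun z : V m => ((fun i j => f (mt z) (mt g) i j) : V m)) :=
  hf.comp (measurable_id.prodMk measurable_const : Measurable (fun z : V m => (z, g)))

private lemma meas_sz {m : ℕ} (hs : Measurable (fun z : V m => sz (mt z))) (f : V m → Mat m)
    (hf : Measurable (fun z : V m => ((fun i j => f z i j) : V m))) :
    Measurable (fun z : V m => sz (f z)) := hs.comp hf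

private lemma meas_fun {m : ℕ} (Φ : Mat m → ℂ) (hs : Measurable (fun z : V m => Φ (mt z)))
    (f : V m → Mat m) (hf : Measurable (fun z : V m => ((fun i j => f z i j) : V m))) :
    Measurable (fun z : V m => Φ (f z)) := hs.comp hf

open Classical in
private lemma left_lim (hMSR : T_MSR) (hTNL : T_TNL) (hALZ : T_ALZ) {m N : ℕ} [NeZero N]
    {T : ℕ → Finset (ZM m)} {D : Set (V m)} (hS : SysZ m N T D) {F : Mat m → VN m N → ℂ}
    {lam : ℕ → ℂ} (hE : HecA m N T F lam) {Ψ : Mat m → ℂ} (hΨ : Dg m Ψ)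
    {c : ℕ → Mat m → ℝ} (hc01 : ∀ j z, 0 ≤ c j z ∧ c j z ≤ 1)
    (hc1 : ∀ z : Mat m, z.det ≠ 0 → Tendsto (fun j => c j z) atTop (𝓝 1))
    (hcT : ∀ j, Tg m (fun z => (c j z : ℂ) * Ψ z)) (g : Mat m) (r : ℝ) (x : VN m N)
    (hg : g.det ≠ 0) (hr : 0 < r) :
    Tendsto (fun j => ∫ z in D, ∑' α : ZM m, (if α.det = 0 then 0 else
        ((c j (kk r (mt z) (cR α) g) : ℂ) * Ψ (kk r (mt z) (cR α) g)) *
          F (mt z) (ac N α x)) ∂(hm m)) atTop
      (𝓝 (∫ z in D, ∑' α : ZM m, (if α.det = 0 then 0 else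
        Ψ (kk r (mt z) (cR α) g) * F (mt z) (ac N α x)) ∂(hm m))) := by
  obtain ⟨-, -, -, hszm, -, -, hkkm, hΦm⟩ := hMSR.1 m
  have hcount : Countable (ZM m) := inferInstanceAs (Countable (Fin m → Fin m → ℤ))
  obtain ⟨K, N₁, C, -, -, hTD⟩ := hTNL m hS.one_le 0
  have hint := hTD D hS.dom r hr g hg
  obtain ⟨M, hM0, hM⟩ := hΨ.dec N₁
  obtain ⟨B₀, hB₀⟩ := hE.bdd
  obtain ⟨B, hB0, hB⟩ : ∃ B : ℝ, 0 ≤ B ∧ ∀ g x, g.det ≠ 0 → ‖F g x‖ ≤ B :=
    ⟨max B₀ 0, le_max_right _ _, fun g x h => (hB₀ g x h).trans (le_max_left _ _)⟩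
  have hA3 : ∀ α : ZM m, (cR α).det = ((α.det : ℤ) : ℝ) := fun α =>
    ((hALZ m N hS.one_le hS.two_le).1.2 α).1
  obtain ⟨e, he⟩ : ∃ e : V m → ZM m → ENNReal, e = fun z α => if α.det = 0 then 0 else
    ENNReal.ofReal ((1 + sz (kk r (mt z) (cR α) g)) ^ (-(N₁ : ℝ))) := ⟨_, rfl⟩
  have hint' : ∫⁻ z in D, ∑' α : ZM m, e z α ∂(hm m) ≠ ⊤ := by
    refine ne_top_of_le_ne_top (ENNReal.ofReal_ne_top (r := C * r ^ K)) ?_
    rw [he]
    exact hint
  have hkm : ∀ α : ZM m, Measurable (fun z : V m =>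
      ((fun i j => kk r (mt z) (cR α) g i j) : V m)) := by
    intro α
    exact meas_pair (fun a b => kk r a (cR α) b) (hkkm r (cR α)) (fun i j => g i j)
  have hem : Measurable (fun z => ∑' α : ZM m, e z α) := by
    rw [he]
    refine Measurable.tsum fun α => ?_
    by_cases hα : α.det = 0
    · simp only [if_pos hα]
      exact measurable_const
    · simp only [if_neg hα]
      have h1 : Measurable (fun z : V m => sz (kk r (mt z) (cR α) g)) :=
        meas_sz hszm (fun z => kk r (mt z) (cR α) g) (hkm α)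
      exact ((measurable_const.add h1).pow_const _).ennreal_ofReal
  have hdetD : ∀ z ∈ D, (mt z).det ≠ 0 := fun z hz =>
    det_of_aN hS.one_le (hS.dom.shell z hz).1
  obtain ⟨μ, hμ⟩ : ∃ μ : Measure (V m), μ = (hm m).restrict D := ⟨_, rfl⟩
  have hae : ∀ᵐ z ∂μ, ∑' α : ZM m, e z α < ⊤ := by
    rw [hμ]
    exact ae_lt_top hem hint'
  have hD : ∀ᵐ z ∂μ, z ∈ D := by
    rw [hμ]
    exact ae_restrict_mem hS.dom.meas
  obtain ⟨tm, htmd⟩ : ∃ tm : (Mat m → ℂ) → V m → ZM m → ℂ, tm = fun Φ z α =>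
    if α.det = 0 then 0 else Φ (kk r (mt z) (cR α) g) * F (mt z) (ac N α x) := ⟨_, rfl⟩
  have hb : ∀ Φ : Mat m → ℂ, (∀ z, ‖Φ z‖ ≤ ‖Ψ z‖) → ∀ z ∈ D, ∀ α : ZM m,
      ‖tm Φ z α‖ ≤ M * B * (e z α).toReal := by
    intro Φ hΦ z hz α
    rw [htmd]
    by_cases hα : α.det = 0
    · simp only [if_pos hα, norm_zero]
      exact mul_nonneg (mul_nonneg hM0 hB0) ENNReal.toReal_nonneg
    · simp only [if_neg hα]
      have h0 : 0 ≤ (1 + sz (kk r (mt z) (cR α) g)) ^ (-(N₁ : ℝ)) :=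
        Real.rpow_nonneg (add_nonneg zero_le_one (norm_nonneg _)) _
      have h1 : (e z α).toReal = (1 + sz (kk r (mt z) (cR α) g)) ^ (-(N₁ : ℝ)) := by
        rw [he]
        simp only [if_neg hα]
        exact ENNReal.toReal_ofReal h0
      rw [h1, norm_mul]
      calc ‖Φ (kk r (mt z) (cR α) g)‖ * ‖F (mt z) (ac N α x)‖
          ≤ (M * (1 + sz (kk r (mt z) (cR α) g)) ^ (-(N₁ : ℝ))) * B :=
            mul_le_mul ((hΦ _).trans (hM _)) (hB _ _ (hdetD z hz)) (norm_nonneg _)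
              (mul_nonneg hM0 h0)
        _ = M * B * (1 + sz (kk r (mt z) (cR α) g)) ^ (-(N₁ : ℝ)) := by ring
  have hsum : ∀ z : V m, ∑' α : ZM m, e z α < ⊤ →
      Summable (fun α : ZM m => M * B * (e z α).toReal) := fun z hz =>
    (ENNReal.summable_toReal hz.ne).mul_left _
  have hFm : ∀ y : VN m N, AEStronglyMeasurable (fun z : V m => F (mt z) y) μ := by
    intro y
    rw [hμ]
    have h1 : ContinuousOn (fun z : V m => F (mt z) y) D := by
      refine (hE.cont y).comp (f := fun z : V m => (mt z : Mat m)) ?_ ?_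
      · exact (continuous_id (X := V m)).continuousOn
      · intro z hz
        exact hdetD z hz
    exact h1.aestronglyMeasurable hS.dom.meas
  have htm : ∀ Φ : Mat m → ℂ, Continuous Φ → ∀ α : ZM m, AEStronglyMeasurable
      (fun z : V m => tm Φ z α) μ := by
    intro Φ hΦ α
    rw [htmd]
    by_cases hα : α.det = 0
    · simp only [if_pos hα]
      exact aestronglyMeasurable_const
    · simp only [if_neg hα]
      refine AEStronglyMeasurable.mul ?_ (hFm _)
      have h1 : Measurable (fun z : V m => Φ (kk r (mt z) (cR α) g)) :=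
        meas_fun Φ (hΦm Φ hΦ) (fun z => kk r (mt z) (cR α) g) (hkm α)
      exact h1.aestronglyMeasurable
  have hgoal : Tendsto (fun j => ∫ z, (∑' α : ZM m, tm (fun y => (c j y : ℂ) * Ψ y) z α) ∂μ)
      atTop (𝓝 (∫ z, (∑' α : ZM m, tm Ψ z α) ∂μ)) := by
    refine tendsto_integral_of_dominated_convergence
      (fun z => M * B * (∑' α : ZM m, e z α).toReal) ?_ ?_ ?_ ?_
    · intro j
      refine aestronglyMeasurable_of_tendsto_ae (Filter.atTop : Filter (Finset (ZM m)))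
        (f := fun A z => ∑ α ∈ A, tm (fun y => (c j y : ℂ) * Ψ y) z α) ?_ ?_
      · intro A
        exact Finset.aestronglyMeasurable_fun_sum A fun α _ => htm _ (hcT j).cont α
      · filter_upwards [hae, hD] with z hz hzD
        refine Summable.hasSum ?_
        exact Summable.of_norm_bounded (hsum z hz) (hb _ (cut_norm hc01 Ψ j) z hzD)
    · refine Integrable.const_mul ?_ _
      rw [hμ]
      exact integrable_toReal_of_lintegral_ne_top hem.aemeasurable hint'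
    · intro j
      filter_upwards [hae, hD] with z hz hzD
      have h1 := hb _ (cut_norm hc01 Ψ j) z hzD
      have h2 : Summable (fun α : ZM m => ‖tm (fun y => (c j y : ℂ) * Ψ y) z α‖) :=
        Summable.of_nonneg_of_le (fun _ => norm_nonneg _) h1 (hsum z hz)
      refine (norm_tsum_le_tsum_norm h2).trans ?_
      refine (h2.tsum_le_tsum h1 (hsum z hz)).trans (le_of_eq ?_)
      rw [tsum_mul_left, ENNReal.tsum_toReal_eq]
      intro α
      rw [he]
      simp only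
      split_ifs
      · exact ENNReal.zero_ne_top
      · exact ENNReal.ofReal_ne_top
    · filter_upwards [hae, hD] with z hz hzD
      refine tendsto_tsum_of_dominated_convergence (hsum z hz) ?_ ?_
      · intro α
        rw [htmd]
        by_cases hα : α.det = 0
        · simp only [if_pos hα]
          exact tendsto_const_nhds
        · simp only [if_neg hα]
          have h1 : (kk r (mt z) (cR α) g).det ≠ 0 := by
            refine kk_det hr (hdetD z hzD) ?_ hg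
            rw [hA3 α]
            exact_mod_cast hα
          exact (cut_lim hc1 Ψ _ h1).mul_const _
      · exact Eventually.of_forall fun j α => hb _ (cut_norm hc01 Ψ j) z hzD α
  rw [hμ, htmd] at hgoal
  exact hgoal

private lemma inv_contOn {m : ℕ} (g : Mat m) {S : Set (V m)} (hS : ∀ z ∈ S, (mt z).det ≠ 0) :
    ContinuousOn (fun z : V m => (g * (mt z)⁻¹ : Mat m)) S := by
  have hc : Continuous (fun z : V m => (mt z : Mat m)) := continuous_id (X := V m)
  have hd : Continuous (fun z : V m => (mt z).det) := hc.matrix_det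
  have h1 : ContinuousOn (fun z : V m => ((mt z).det)⁻¹ • (mt z).adjugate) S :=
    (hd.continuousOn.inv₀ hS).smul hc.matrix_adjugate.continuousOn
  have h2 : ContinuousOn (fun z : V m => (mt z)⁻¹) S := by
    refine h1.congr fun z hz => ?_
    rw [Matrix.inv_def, Ring.inverse_eq_inv']
  have h3 : Continuous (fun A : Mat m => g * A) := continuous_const.matrix_mul continuous_id
  exact h3.comp_continuousOn h2

private lemma right_lim (hJSH : T_JSH) (hMSR : T_MSR) {m N : ℕ} (hm1 : 1 ≤ m)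
    {F : Mat m → VN m N → ℂ} (hFc : ∀ x, ContinuousOn (fun g => F g x) {g | g.det ≠ 0})
    {B : ℝ} (hB0 : 0 ≤ B) (hB : ∀ g x, g.det ≠ 0 → ‖F g x‖ ≤ B) {lam : ℕ → ℂ}
    {C₁ : ℝ} (hC₁ : 0 ≤ C₁) (hlam : ∀ n : ℕ, 1 ≤ n →
      ‖(n : ℂ) ^ (((m : ℂ) - 1) / 2) * lam n‖ ≤ C₁ * (n : ℝ) ^ m) {Ψ : Mat m → ℂ}
    (hΨ : Dg m Ψ) {c : ℕ → Mat m → ℝ} (hc01 : ∀ j z, 0 ≤ c j z ∧ c j z ≤ 1)
    (hc1 : ∀ z : Mat m, z.det ≠ 0 → Tendsto (fun j => c j z) atTop (𝓝 1))
    (hcT : ∀ j, Tg m (fun z => (c j z : ℂ) * Ψ z)) (g : Mat m) (hg : g.det ≠ 0) (x : VN m N)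
    (r : ℝ) (hr : 0 < r) :
    Tendsto (fun j => thA m (fun r' => Rr (fun z => (c j z : ℂ) * Ψ z) r' F g x) lam r) atTop
      (𝓝 (thA m (fun r' => Rr Ψ r' F g x) lam r)) := by
  classical
  obtain ⟨-, -, haNm, hszm, -, hShm, -, hΦm⟩ := hMSR.1 m
  have hmm : (m : ℝ) ^ 2 ≤ ((m * (m + 2) : ℕ) : ℝ) := by
    push_cast
    nlinarith [(Nat.cast_nonneg m : (0 : ℝ) ≤ m)]
  obtain ⟨N₁, C, hC, hJS⟩ := hJSH m hm1 _ hmm
  obtain ⟨M, hM0, hM⟩ := hΨ.dec N₁
  have hShd : ∀ z ∈ Shell m, (mt z).det ≠ 0 := fun z hz => det_of_aN hm1 hz.1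
  obtain ⟨μ, hμ⟩ : ∃ μ : Measure (V m), μ = (hm m).restrict (Shell m) := ⟨_, rfl⟩
  have hSh : ∀ᵐ z ∂μ, z ∈ Shell m := by
    rw [hμ]
    exact ae_restrict_mem hShm
  have hdet' : ∀ z ∈ Shell m, (g * (mt z)⁻¹ : Mat m).det ≠ 0 := by
    intro z hz
    rw [Matrix.det_mul, Matrix.det_nonsing_inv, Ring.inverse_eq_inv']
    exact mul_ne_zero hg (inv_ne_zero (hShd z hz))
  have hFm : AEStronglyMeasurable (fun z : V m => F (g * (mt z)⁻¹) x) μ := by
    rw [hμ]
    have h1 : ContinuousOn (fun z : V m => F (g * (mt z)⁻¹) x) (Shell m) := by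
      refine (hFc x).comp (f := fun z : V m => (g * (mt z)⁻¹ : Mat m)) (inv_contOn g hShd) ?_
      intro z hz
      exact hdet' z hz
    exact h1.aestronglyMeasurable hShm
  have hsm : ∀ t : ℝ, Measurable (fun z : V m =>
      ((fun i j => ((t⁻¹ * (aN (mt z))⁻¹) • mt z) i j) : V m)) := by
    intro t
    refine measurable_pi_lambda _ fun i => measurable_pi_lambda _ fun j => ?_
    have h1 : Measurable (fun z : V m => z i j) :=
      (measurable_pi_apply j).comp (measurable_pi_apply i)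
    exact (measurable_const.mul haNm.inv).mul h1
  obtain ⟨e, he⟩ : ∃ e : ℝ → V m → ℝ, e = fun t z =>
    (1 + sz ((t⁻¹ * (aN (mt z))⁻¹) • mt z)) ^ (-(N₁ : ℝ)) := ⟨_, rfl⟩
  have he0 : ∀ t z, 0 ≤ e t z := by
    intro t z
    rw [he]
    exact Real.rpow_nonneg (add_nonneg zero_le_one (norm_nonneg _)) _
  have hem : ∀ t, Measurable (e t) := by
    intro t
    rw [he]
    have h1 : Measurable (fun z : V m => sz ((t⁻¹ * (aN (mt z))⁻¹) • mt z)) :=
      meas_sz hszm (fun z => (t⁻¹ * (aN (mt z))⁻¹) • mt z) (hsm t)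
    exact (measurable_const.add h1).pow_const _
  have heI : ∀ t : ℝ, 0 < t → ∫⁻ z, ENNReal.ofReal (e t z) ∂μ ≤
      ENNReal.ofReal (C * t ^ (m * (m + 2))) := by
    intro t ht
    have h1 := hJS t ht
    rw [Real.rpow_natCast] at h1
    rw [hμ, he]
    exact h1
  have heInt : ∀ t : ℝ, 0 < t → Integrable (fun z => M * B * e t z) μ := by
    intro t ht
    refine Integrable.const_mul ?_ _
    refine ⟨(hem t).aestronglyMeasurable, ?_⟩
    rw [hasFiniteIntegral_iff_norm]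
    refine lt_of_le_of_lt (lintegral_mono fun z => ?_) (lt_of_le_of_lt (heI t ht)
      ENNReal.ofReal_lt_top)
    rw [Real.norm_of_nonneg (he0 t z)]
  have hJ : ∀ t : ℝ, 0 < t → ∫ z, M * B * e t z ∂μ ≤ M * B * (C * t ^ (m * (m + 2))) := by
    intro t ht
    rw [integral_const_mul]
    refine mul_le_mul_of_nonneg_left ?_ (mul_nonneg hM0 hB0)
    rw [integral_eq_lintegral_of_nonneg_ae (Eventually.of_forall (he0 t))
      (hem t).aestronglyMeasurable]
    exact ENNReal.toReal_le_of_le_ofReal (by positivity) (heI t ht)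
  have hpt : ∀ Φ : Mat m → ℂ, (∀ z, ‖Φ z‖ ≤ ‖Ψ z‖) → ∀ (t : ℝ) (z : V m), z ∈ Shell m →
      ‖Φ ((t⁻¹ * (aN (mt z))⁻¹) • mt z) * F (g * (mt z)⁻¹) x‖ ≤ M * B * e t z := by
    intro Φ hΦ t z hz
    have h0 := he0 t z
    rw [he] at h0 ⊢
    rw [norm_mul]
    calc ‖Φ ((t⁻¹ * (aN (mt z))⁻¹) • mt z)‖ * ‖F (g * (mt z)⁻¹) x‖
        ≤ (M * (1 + sz ((t⁻¹ * (aN (mt z))⁻¹) • mt z)) ^ (-(N₁ : ℝ))) * B :=
          mul_le_mul ((hΦ _).trans (hM _)) (hB _ _ (hdet' z hz)) (norm_nonneg _)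
            (mul_nonneg hM0 h0)
      _ = M * B * (1 + sz ((t⁻¹ * (aN (mt z))⁻¹) • mt z)) ^ (-(N₁ : ℝ)) := by ring
  have hgm : ∀ Φ : Mat m → ℂ, Continuous Φ → ∀ t : ℝ, AEStronglyMeasurable
      (fun z : V m => Φ ((t⁻¹ * (aN (mt z))⁻¹) • mt z) * F (g * (mt z)⁻¹) x) μ := by
    intro Φ hΦ t
    refine AEStronglyMeasurable.mul ?_ hFm
    have h1 : Measurable (fun z : V m => Φ ((t⁻¹ * (aN (mt z))⁻¹) • mt z)) :=
      meas_fun Φ (hΦm Φ hΦ) (fun z => (t⁻¹ * (aN (mt z))⁻¹) • mt z) (hsm t)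
    exact h1.aestronglyMeasurable
  have hRn : ∀ t : ℝ, 0 < t → ∀ j, ‖Rr (fun z => (c j z : ℂ) * Ψ z) t F g x‖ ≤
      M * B * (C * t ^ (m * (m + 2))) := by
    intro t ht j
    unfold Rr
    rw [← hμ]
    refine (norm_integral_le_of_norm_le (heInt t ht) ?_).trans (hJ t ht)
    filter_upwards [hSh] with z hz
    exact hpt (fun z => (c j z : ℂ) * Ψ z) (cut_norm hc01 Ψ j) t z hz
  have hlim : ∀ t : ℝ, 0 < t → Tendsto (fun j => Rr (fun z => (c j z : ℂ) * Ψ z) t F g x) atTop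
      (𝓝 (Rr Ψ t F g x)) := by
    intro t ht
    unfold Rr
    rw [← hμ]
    refine tendsto_integral_of_dominated_convergence (fun z => M * B * e t z) ?_ ?_ ?_ ?_
    · exact fun j => hgm (fun z => (c j z : ℂ) * Ψ z) (hcT j).cont t
    · exact heInt t ht
    · intro j
      filter_upwards [hSh] with z hz
      exact hpt (fun z => (c j z : ℂ) * Ψ z) (cut_norm hc01 Ψ j) t z hz
    · filter_upwards [hSh] with z hz
      have hd : (mt z).det ≠ 0 := hShd z hz
      have ha := aN_pos hd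
      refine (cut_lim hc1 Ψ _ (det_smul_ne ?_ hd)).mul_const _
      positivity
  unfold thA
  have htn : ∀ n : ℕ, 1 ≤ n → 0 < r * (n : ℝ) ^ (-(1 / (m : ℝ))) := by
    intro n hn
    have : (0 : ℝ) < n := by exact_mod_cast hn
    positivity
  refine tendsto_tsum_of_dominated_convergence
    (bound := fun n : ℕ => C₁ * (M * B * C) * r ^ (m * (m + 2)) * (1 / (n : ℝ) ^ 2)) ?_ ?_ ?_
  · exact (Real.summable_one_div_nat_pow.mpr (by norm_num)).mul_left _
  · intro n
    by_cases hc : 1 ≤ n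
    · simp only [if_pos hc]
      exact (hlim _ (htn n hc)).const_mul _
    · simp only [if_neg hc]
      exact tendsto_const_nhds
  · refine Eventually.of_forall fun j n => ?_
    by_cases hc : 1 ≤ n
    · simp only [if_pos hc]
      have hnpos : (0 : ℝ) < n := by exact_mod_cast hc
      have hmpos : (0 : ℝ) < m := by exact_mod_cast hm1
      have h7 : (r * (n : ℝ) ^ (-(1 / (m : ℝ)))) ^ (m * (m + 2)) =
          r ^ (m * (m + 2)) * ((n : ℝ) ^ (m + 2))⁻¹ := by
        rw [mul_pow]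
        congr 1
        rw [← Real.rpow_natCast ((n : ℝ) ^ (-(1 / (m : ℝ)))), ← Real.rpow_mul hnpos.le]
        have h8 : -(1 / (m : ℝ)) * ((m * (m + 2) : ℕ) : ℝ) = -((m + 2 : ℕ) : ℝ) := by
          push_cast
          field_simp
        rw [h8, Real.rpow_neg hnpos.le, Real.rpow_natCast]
      rw [norm_mul]
      calc ‖(n : ℂ) ^ (((m : ℂ) - 1) / 2) * lam n‖ *
            ‖Rr (fun z => (c j z : ℂ) * Ψ z) (r * (n : ℝ) ^ (-(1 / (m : ℝ)))) F g x‖
          ≤ C₁ * (n : ℝ) ^ m * (M * B * (C * (r * (n : ℝ) ^ (-(1 / (m : ℝ)))) ^ (m * (m + 2)))) :=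
            mul_le_mul (hlam n hc) (hRn _ (htn n hc) j) (norm_nonneg _) (by positivity)
        _ = C₁ * (M * B * C) * r ^ (m * (m + 2)) * (1 / (n : ℝ) ^ 2) := by
            rw [h7, pow_add (n : ℝ) m 2]
            field_simp
    · simp only [if_neg hc]
      rw [norm_zero]
      positivity

open Classical in
/-- a test function does not see the singular matrices -/
private lemma op_tst (hALZ : T_ALZ) {m N : ℕ} [NeZero N] {T : ℕ → Finset (ZM m)}
    {D : Set (V m)} (hS : SysZ m N T D) (F : Mat m → VN m N → ℂ) {Φ : Mat m → ℂ}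
    (hΦ : Tg m Φ) (g : Mat m) (r : ℝ) (x : VN m N) :
    ∫ z in D, ∑' α : ZM m, (if α.det = 0 then 0 else
      Φ (kk r (mt z) (cR α) g) * F (mt z) (ac N α x)) ∂(hm m) = opAu N Φ r D F g x := by
  unfold opAu
  have h : ∀ (z : V m) (α : ZM m), (if α.det = 0 then 0 else
      Φ (kk r (mt z) (cR α) g) * F (mt z) (ac N α x)) =
      Φ (kk r (mt z) (cR α) g) * F (mt z) (ac N α x) := by
    intro z α
    split_ifs with hα
    · have h1 : (kk r (mt z) (cR α) g).det = 0 := by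
        unfold kk
        rw [Matrix.det_smul, Matrix.det_mul, Matrix.det_mul,
          ((hALZ m N hS.one_le hS.two_le).1.2 α).1, hα]
        simp
      have h2 : Φ (kk r (mt z) (cR α) g) = 0 := by
        by_contra h0
        obtain ⟨c, hc, hcs⟩ := hΦ.supp
        have h3 := (hcs _ h0).2
        rw [h1, abs_zero] at h3
        exact absurd h3 (not_le.2 (inv_pos.2 hc))
      rw [h2, zero_mul]
    · rfl
  simp only [h]

theorem pf_EGB (hEIA : T_EIA) (hCUA : T_CUA) (hTNL : T_TNL) (hJSH : T_JSH) (hLMA : T_LMA)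
    (hALZ : T_ALZ) (hMSR : T_MSR) : T_EGB := by
  classical
  intro m N _ T D hS F lam hE hNZ Ψ hΨ g r x hg hr
  obtain ⟨C₁, hC₁, hlam⟩ := hLMA m N T D hS F lam hE hNZ
  obtain ⟨c, hc01, hc1, hcT⟩ := hCUA m hS.one_le
  obtain ⟨B₀, hB₀⟩ := hE.bdd
  have h1 := left_lim hMSR hTNL hALZ hS hE hΨ hc01 hc1 (hcT Ψ hΨ) g r x hg hr
  have h2 := right_lim hJSH hMSR hS.one_le hE.cont (le_max_right B₀ 0)
    (fun g x h => (hB₀ g x h).trans (le_max_left _ _)) hC₁ hlam hΨ hc01 hc1 (hcT Ψ hΨ) g hg x r hr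
  refine tendsto_nhds_unique h1 (h2.congr fun j => ?_)
  rw [← hEIA m N T D hS F lam hE _ (hcT Ψ hΨ j) g r x hg hr]
  exact (op_tst hALZ hS F (hcT Ψ hΨ j) g r x).symm

end Pool.Agent.H94.GA
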